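import Pool.Agent.L0h5.TW.Stm
import Pool.Agent.L0h5.TU.AvgU

/-!
# Project TW, module W3: the average over the window
-/

set_option autoImplicit false
set_option linter.unusedSectionVars false

namespace Pool.Agent.L0h5.TW

open Finset Pool.Agent.W262.RK Pool.Agent.L0h5.TH
open Pool.Agent.L0h5.TF hiding oo QF
open Pool.Agent.L0h5.AG (gg)
open Pool.Agent.L0h5.TT (psi LL)
open Pool.Agent.L0h94.FT (Lki)
open Pool.Agent.L0h5.TU

lemma Lw_self {J : Type} {k B : ℕ} {c : J → Fin 4} (i : Iw k B c) : Lki lbw i i = false := by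
  unfold Pool.Agent.L0h94.FT.Lki Ll
  rw [decide_eq_false_iff_not, Nat.not_odd_iff_even]
  exact (lbw i).2

lemma OkL_iff {k : ℕ} {c : Fin 4} {l : Lb k} : OkL c l = true ↔
    c = 3 ∨ ∀ m, Al c (l.1.1 m) (l.1.2 m) = true := by
  unfold OkL
  rw [Bool.or_eq_true, decide_eq_true_iff, decide_eq_true_iff]

lemma wst_pos {k : ℕ} {c : Fin 4} {l : Lb k} (h : OkL c l = true) : 0 < wst c l.1.1 l.1.2 := by
  unfold wst
  refine prod_pos fun m _ => ?_
  rcases OkL_iff.1 h with h1 | h1
  · rw [if_pos h1]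
    norm_num
  · split_ifs with h2 h3
    · norm_num
    · norm_num
    · exact absurd (h1 m) h3

lemma wst_zero {k : ℕ} {c : Fin 4} {l : Lb k} (h : ¬ OkL c l = true) : wst c l.1.1 l.1.2 = 0 := by
  rw [OkL_iff] at h
  push Not at h
  obtain ⟨h1, m, hm⟩ := h
  unfold wst
  refine prod_eq_zero (mem_univ m) ?_
  rw [if_neg h1, if_neg hm]

lemma wW_pos {k : ℕ} {c : Fin 4} (bad : Bool) {l : Lb k} (h : OkL c l = true) : 0 < wW c bad l := by
  have h1 := wst_pos h
  unfold wW
  split_ifs <;> linarith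

/-- the bound for the coefficients of a state -/
noncomputable def FW {k : ℕ} (c : Fin 4) (evn : Bool) (l : Vk k × Vk k) (s : Bool) : ℝ :=
  if (decide (c ≠ 3) && evn && s) = true then
    (if l = (fun _ => (false, false), fun _ => (false, false)) then 1 else 0)
  else wst c l.1 l.2

lemma FW_nonneg {k : ℕ} (c : Fin 4) (evn : Bool) (l : Vk k × Vk k) (s : Bool) :
    0 ≤ FW c evn l s := by
  unfold FW
  have := wst_nonneg c l.1 l.2
  split_ifs <;> linarith

lemma FW_le {k : ℕ} (c : Fin 4) (evn : Bool) (l : Vk k × Vk k) (s : Bool) : FW c evn l s ≤ 1 := by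
  unfold FW
  have := wst_le c l.1 l.2
  split_ifs <;> linarith

lemma FW_th {k : ℕ} (c : Fin 4) (evn sp : Bool) (l : Lb k) :
    FW c evn l.1 true + (FW c evn l.1 false - FW c evn l.1 true) * th sp =
      wW c (decide (c ≠ 3) && evn && !sp) l := by
  unfold FW wW th
  by_cases hc : c = 3
  · simp [hc]
  · cases evn <;> cases sp
    · simp [hc]
    · simp [hc]
    · simp only [hc, ne_eq, not_false_eq_true, decide_true, Bool.and_self, Bool.and_false,
        Bool.not_false, if_true, Bool.false_eq_true, if_false]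
      split_ifs <;> ring
    · simp only [hc, ne_eq, not_false_eq_true, decide_true, Bool.and_self, Bool.and_false,
        Bool.not_true, if_true, Bool.false_eq_true, if_false]
      split_ifs <;> ring

lemma bstE_leW {k : ℕ} (c : Fin 4) (ev : Bool) (κ : Fin 3 → ℤ) (p : ℕ) (v x : Vk k) :
    |bstE c ev κ p v x| ≤ FW c ev (v, x) (sg0 p (κ 0)) := by
  have hn : nsE c ev κ p = (decide (c ≠ 3) && ev && sg0 p (κ 0)) := by
    unfold nsE
    cases ev <;> cases decide (c ≠ 3) <;> simp
  unfold bstE FW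
  rw [hn]
  by_cases h : (decide (c ≠ 3) && ev && sg0 p (κ 0)) = true
  · rw [if_pos h, if_pos h]
    simp only [Prod.mk.injEq]
    split_ifs <;> simp
  · rw [if_neg h, if_neg h]
    exact bst_le c κ p v x

/-- labels that do not occur have coefficient zero -/
lemma bstE_zeroW {k : ℕ} {c : Fin 4} (ev : Bool) (κ : Fin 3 → ℤ) (p : ℕ) {l : Lb k}
    (h : ¬ OkL c l = true) : bstE c ev κ p l.1.1 l.1.2 = 0 := by
  have h1 := bstE_leW c ev κ p l.1.1 l.1.2
  have h2 := wst_zero h
  unfold FW at h1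
  split_ifs at h1 with h3 h4
  · exfalso
    apply h
    rw [OkL_iff]
    right
    intro m
    have e1 : l.1.1 = fun _ => (false, false) := congrArg Prod.fst h4
    have e2 : l.1.2 = fun _ => (false, false) := congrArg Prod.snd h4
    rw [e1, e2]
    have h5 : ∀ c : Fin 4, Al c (false, false) (false, false) = true := by decide
    exact h5 c
  · exact abs_nonpos_iff.1 h1
  · have h5 : wst c (l.1.1, l.1.2).1 (l.1.1, l.1.2).2 = 0 := h2
    rw [h5] at h1
    exact abs_nonpos_iff.1 h1

/-- the sum over the indices -/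
lemma sum_Iw {J : Type} [Fintype J] [DecidableEq J] {k B : ℕ} (cl : J → Fin 4) (j : J) (v : Vk k)
    (f : Lb k → ℝ) (hf : ∀ l : Lb k, ¬ OkL (cl j) l = true → f l = 0) :
    ∑ i ∈ univ.filter (fun i : Iw k B cl => tyw i = j ∧ (lbw i).1.1 = v), f (lbw i) =
      B * ∑ l : Lb k, if l.1.1 = v then f l else 0 := by
  classical
  have h1 : ∑ i ∈ univ.filter (fun i : Iw k B cl => tyw i = j ∧ (lbw i).1.1 = v), f (lbw i) =
      ∑ i ∈ (univ : Finset (J × Lb k × Fin B)).filter (fun i => OkL (cl i.1) i.2.1 = true ∧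
        i.1 = j ∧ i.2.1.1.1 = v), f i.2.1 := by
    refine sum_bij (fun i _ => i.1) ?_ ?_ ?_ ?_
    · intro i hi
      rw [mem_filter] at hi ⊢
      exact ⟨mem_univ _, i.2, hi.2⟩
    · intro i _ i' _ h
      exact Subtype.ext h
    · intro i hi
      rw [mem_filter] at hi
      exact ⟨⟨i, hi.2.1⟩, mem_filter.2 ⟨mem_univ _, hi.2.2⟩, rfl⟩
    · intro i _
      rfl
  rw [h1, sum_filter, Fintype.sum_prod_type, sum_eq_single j]
  · rw [Fintype.sum_prod_type, mul_sum]
    refine sum_congr rfl fun l _ => ?_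
    simp only [sum_const, card_univ, Fintype.card_fin, nsmul_eq_mul]
    by_cases h2 : l.1.1 = v
    · by_cases h3 : OkL (cl j) l = true
      · rw [if_pos ⟨h3, trivial, h2⟩, if_pos h2]
      · rw [if_neg (fun h => h3 h.1), if_pos h2, hf l h3]
    · rw [if_neg (fun h => h2 h.2.2), if_neg h2]
  · intro j' _ hj'
    refine sum_eq_zero fun x _ => ?_
    rw [if_neg (fun h => hj' h.2.1)]
  · intro h
    exact absurd (mem_univ _) h

/-- a sum over the characters as a sum over the labels -/
lemma sum_lab {k : ℕ} (v : Vk k) (f : Vk k → ℝ) (hf : ∀ x, ¬ Even (nd x v) → f x = 0) :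
    ∑ x, f x = ∑ l : Lb k, if l.1.1 = v then f l.1.2 else 0 := by
  classical
  rw [← sum_filter]
  symm
  have h1 : ∑ x, f x = ∑ x ∈ univ.filter (fun x : Vk k => Even (nd x v)), f x := by
    symm
    apply sum_filter_of_ne
    intro x _ hx
    by_contra hcon
    exact hx (hf x hcon)
  rw [h1]
  refine sum_bij (fun l _ => l.1.2) ?_ ?_ ?_ ?_
  · intro l hl
    rw [mem_filter] at hl ⊢
    refine ⟨mem_univ _, ?_⟩
    rw [← hl.2]
    exact l.2
  · intro l hl l' hl' h
    rw [mem_filter] at hl hl'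
    exact Subtype.ext (Prod.ext (hl.2.trans hl'.2.symm) h)
  · intro x hx
    rw [mem_filter] at hx
    exact ⟨⟨(v, x), hx.2⟩, mem_filter.2 ⟨mem_univ _, rfl⟩, rfl⟩
  · intro l _
    rfl

/-- **W3** -/
theorem s4_avg (hAG : S2_AG) (hEXP : S4_EXP) (hCMB : S4_CMB) : S4_AVG := by
  classical
  intro J _ _ _ cl evn sp hcrit k B0 c hk
  obtain ⟨bad, hbad⟩ : ∃ bad : J → Bool, bad = fun j => decide (cl j ≠ 3) && evn j && !(sp j) :=
    ⟨_, rfl⟩
  rw [← hbad] at hcrit
  obtain ⟨B, hBdef⟩ : ∃ B : ℕ, B = 2 * B0 + 2 := ⟨_, rfl⟩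
  have hB : 0 < B := by omega
  have hBr : (0 : ℝ) < B := by exact_mod_cast hB
  have hB1 : (1 : ℝ) ≤ B := by exact_mod_cast hB
  obtain ⟨δ0, hδ0, hδ2, hC⟩ := hCMB J k B cl bad hk hB (fun j hj => by rw [hbad]; simp [hj]) hcrit
  obtain ⟨z0, hz0⟩ := hAG (Iw k B cl) J tyw (ew bad) (Lki lbw) c
    (Fintype.card J) δ0 (fun i => div_pos (wW_pos _ i.2) hBr) Lw_self (Nat.cast_nonneg _) hδ0
    (by linarith) (fun U hU => hC δ0 hδ0 le_rfl U hU)
  refine ⟨δ0, hδ0, hδ2, z0 + 2 * c + 8, by omega, fun z hz kap R Cj hR0 H1 H2 => ?_⟩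
  have hpc : ∀ p : ℕ, z < p → (0 : ℝ) < (p : ℝ) - c := by
    intro p hp
    have : (2 * c + 3 : ℝ) ≤ p := by exact_mod_cast (by omega : 2 * c + 3 ≤ p)
    have hc0 : (0 : ℝ) ≤ c := Nat.cast_nonneg c
    linarith
  obtain ⟨w, hw⟩ : ∃ w : J → Lb k → ℕ → ℝ,
      w = fun j l p => ∑ r ∈ R j p, bstE (cl j) (evn j) (kap j r) p l.1.1 l.1.2 := ⟨_, rfl⟩
  have hwb : ∀ j l p, |w j l p| ≤ ∑ r ∈ R j p, FW (cl j) (evn j) l.1 (sg0 p (kap j r 0)) := by
    intro j l p
    rw [hw]
    exact (abs_sum_le_sum_abs _ _).trans (sum_le_sum fun r _ => bstE_leW _ _ _ _ _ _)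
  obtain ⟨g, hg⟩ : ∃ g : Iw k B cl → ℕ → ℝ,
      g = fun i p => w (tyw i) (lbw i) p / (B * ((p : ℝ) - c)) := ⟨_, rfl⟩
  have hCj : 0 ≤ Cj := (abs_nonneg _).trans (H1 (Classical.arbitrary J) (z + 1) (by omega))
  obtain ⟨C, hC'⟩ := hz0 z (by omega) g (2 * 1 * Cj)
    (fun i p hp hpz => by
      have h1 : |w (tyw i) (lbw i) p| ≤ B0 := by
        refine (hwb _ _ _).trans ?_
        calc ∑ r ∈ R (tyw i) p, FW (cl (tyw i)) (evn (tyw i)) (lbw i).1
              (sg0 p (kap (tyw i) r 0)) ≤
            ∑ _r ∈ R (tyw i) p, (1 : ℝ) := sum_le_sum fun r _ => FW_le _ _ _ _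
          _ = (R (tyw i) p).card := by rw [sum_const, nsmul_eq_mul, mul_one]
          _ ≤ _ := by
              have h2 : (R (tyw i) p).card ≤ ∑ j, (R j p).card :=
                single_le_sum (f := fun j => (R j p).card) (fun _ _ => Nat.zero_le _)
                  (mem_univ (tyw i))
              exact_mod_cast h2.trans (hR0 p hp hpz)
      have h2 := hpc p hpz
      rw [hg]
      simp only
      rw [abs_div, abs_of_pos (mul_pos hBr h2), ← div_div]
      refine div_le_div_of_nonneg_right ?_ h2.le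
      rw [div_le_iff₀ hBr]
      refine h1.trans ?_
      rw [hBdef]
      push_cast
      linarith)
    (fun i y hy => by
      have h0 := asym (cls := cl) (sp := sp) H1 (fun j hj y hy => H2 j y hj hy) (tyw i)
        (fun s => FW (cl (tyw i)) (evn (tyw i)) (lbw i).1 s)
        (fun h => by
          show FW (cl (tyw i)) (evn (tyw i)) (lbw i).1 false =
            FW (cl (tyw i)) (evn (tyw i)) (lbw i).1 true
          unfold FW
          rw [h]
          simp) (M := 1)
        (by
          show |FW (cl (tyw i)) (evn (tyw i)) (lbw i).1 true| ≤ 1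
          rw [abs_of_nonneg (FW_nonneg _ _ _ _)]
          exact FW_le _ _ _ _)
        (by
          show |FW (cl (tyw i)) (evn (tyw i)) (lbw i).1 false -
            FW (cl (tyw i)) (evn (tyw i)) (lbw i).1 true| ≤ 1
          have h1 := FW_nonneg (cl (tyw i)) (evn (tyw i)) (lbw i).1 false
          have h2 := FW_nonneg (cl (tyw i)) (evn (tyw i)) (lbw i).1 true
          have h3 := FW_le (cl (tyw i)) (evn (tyw i)) (lbw i).1 false
          have h4 := FW_le (cl (tyw i)) (evn (tyw i)) (lbw i).1 true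
          rw [abs_le]
          constructor <;> linarith) hy
      simp only [FW_th] at h0
      have h1 : ∑ p ∈ PS z y, |g i p| ≤
          (∑ p ∈ PS z y, (∑ r ∈ R (tyw i) p, FW (cl (tyw i)) (evn (tyw i)) (lbw i).1
            (sg0 p (kap (tyw i) r 0))) / ((p : ℝ) - c)) / B := by
        rw [sum_div]
        refine sum_le_sum fun p hp => ?_
        have h2 := hpc p (mem_PS.1 hp).1.1
        rw [hg]
        simp only
        rw [abs_div, abs_of_pos (mul_pos hBr h2), div_div, mul_comm ((p : ℝ) - c)]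
        exact div_le_div_of_nonneg_right (hwb _ _ _) (mul_pos hBr h2).le
      refine h1.trans ?_
      rw [div_le_iff₀ hBr]
      have h2 := (abs_le.1 h0).2
      have h3 : ew bad i * Real.log (Real.log y) * B =
          wW (cl (tyw i)) (decide (cl (tyw i) ≠ 3) && evn (tyw i) && !(sp (tyw i))) (lbw i) *
            Real.log (Real.log y) := by
        unfold ew
        rw [hbad]
        field_simp
      rw [add_mul, h3]
      have h4 : 2 * 1 * Cj ≤ 2 * 1 * Cj * B := le_mul_of_one_le_right (by linarith) hB1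
      linarith)
  refine ⟨|C|, abs_nonneg _, fun y hy => ?_⟩
  obtain ⟨F, hF⟩ : ∃ F : (J → ℕ) → ℝ,
      F = fun n => if WinJ δ0 (LL y) n then 1 else 0 := ⟨_, rfl⟩
  have h1 := hC' y hy F (fun n => by rw [hF]; simp only; split_ifs <;> simp)
    (fun n hn => by
      by_contra hcon
      rw [hF] at hn
      simp only [if_neg hcon] at hn
      exact hn rfl)
  rw [← hEXP J (Iw k B cl) k c z y tyw lbw (lamW cl evn kap R) g (fun j p _ hp v h => by
    have h2 := hpc p hp
    have h3 : ∀ i ∈ univ.filter (fun i : Iw k B cl => tyw i = j ∧ (lbw i).1.1 = v),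
        g i p * chi (lbw i).1.2 h =
          (w j (lbw i) p / (B * ((p : ℝ) - c)) * chi (lbw i).1.2 h) := by
      intro i hi
      rw [hg]
      simp only
      rw [(mem_filter.1 hi).2.1]
    rw [sum_congr rfl h3, sum_Iw cl j v
      (fun l => w j l p / (B * ((p : ℝ) - c)) * chi l.1.2 h) (fun l hl => by
        rw [hw]
        simp only
        rw [sum_eq_zero fun r _ => bstE_zeroW (evn j) (kap j r) p hl]
        simp)]
    unfold lamW
    have h4 : ∀ r ∈ R j p, lstE (cl j) (evn j) (kap j r) p v h =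
        ∑ l : Lb k, if l.1.1 = v then bstE (cl j) (evn j) (kap j r) p l.1.1 l.1.2 *
          chi l.1.2 h else 0 := by
      intro r _
      rw [lstE_eq, sum_lab v (fun x => bstE (cl j) (evn j) (kap j r) p v x * chi x h)
        (fun x hx => by rw [bstE_odd _ _ _ _ _ _ hx, zero_mul])]
      refine sum_congr rfl fun l _ => ?_
      by_cases h5 : l.1.1 = v
      · rw [if_pos h5, if_pos h5, h5]
      · rw [if_neg h5, if_neg h5]
    rw [sum_congr rfl h4, sum_comm, sum_mul, mul_sum]
    refine sum_congr rfl fun l _ => ?_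
    by_cases h5 : l.1.1 = v
    · simp only [if_pos h5]
      rw [← sum_mul, hw]
      simp only
      have hne : (p : ℝ) - c ≠ 0 := h2.ne'
      field_simp
    · simp only [if_neg h5]
      simp) F] at h1
  have h2 : ∑ s ∈ (Tup J z y).filter (fun s => WinJ δ0 (LL y) (omJ s)),
      GT (lamW (k := k) cl evn kap R) s * ∏ j, gw 1 c (s j) =
      ∑ s ∈ Tup J z y, F (omJ s) * (GT (lamW (k := k) cl evn kap R) s * ∏ j, gw 1 c (s j)) := by
    rw [sum_filter]
    refine sum_congr rfl fun s _ => ?_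
    rw [hF]
    simp only
    split_ifs <;> simp
  rw [h2]
  have h3 : 0 ≤ (Real.log y) ^ (Fintype.card J) := pow_nonneg (Real.log_natCast_nonneg y) _
  rw [Real.rpow_natCast] at h1
  exact (le_abs_self _).trans (h1.trans (mul_le_mul_of_nonneg_right (le_abs_self C) h3))

end Pool.Agent.L0h5.TW
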