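import Pool.Agent.L0h5.TW.Stm
import Pool.Agent.L0h71.TU.Exp

/-!
# Project TW, module W1: the expansion of the truncated average for any indices
-/

set_option autoImplicit false
set_option linter.unusedSectionVars false

namespace Pool.Agent.L0h5.TW

open Finset Pool.Agent.W262.RK Pool.Agent.L0h5.TF Pool.Agent.L0h5.TU Pool.Agent.L0h94.FT

open Pool.Agent.W762.RK2 (Pr Pr_prime nb nb_pf nb_ne_zero dvd_nb nb_inj nb_dvd nb_dvd_PP nb_eq
  prod_pf Dl Dl_mem lab sum_Tup prod_Dl prod_gw Sym_Dl)

open Pool.Agent.L0h5.AG (gg)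
open Pool.Agent.L0h71.TU

section

variable {k z y : ℕ} {J I : Type} [Fintype J] [DecidableEq J] [Fintype I] [DecidableEq I]

/-- the local sum -/
lemma loc_sum' (t : I → J) (lb : I → Lb k) (lam : J → ℕ → Vk k → Vk k → ℝ) (g : I → ℕ → ℝ) (c : ℕ)
    (ξ : Pr z y → Option (Vk k)) (p : Pr z y)
    (hlam : ∀ j v h, lam j p v h * (1 / (((p : ℕ) : ℝ) - c)) =
      ∑ i ∈ univ.filter (fun i => t i = j ∧ (lb i).1.1 = v), g i p * chi (lb i).1.2 h)
    (T : Option J) :
    ∑ x ∈ univ.filter (fun x : Option I => x.map t = T ∧ fgi lb x = ξ p), Gtw lb g ξ p x =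
      Pool.Agent.L0h71.TU.Lt lam c T (ξ p) (hx ξ p) p := by
  rw [sum_filter, Fintype.sum_option]
  unfold Pool.Agent.L0h71.TU.Lt
  cases hξ : ξ p with
  | none =>
    cases T with
    | none =>
      rw [if_pos ⟨rfl, rfl⟩, Finset.sum_eq_zero fun i _ => if_neg fun e => by simp at e]
      simp [Gtw]
    | some j =>
      rw [if_neg (fun e => by simp at e), Finset.sum_eq_zero fun i _ => if_neg fun e => by
        have := e.2
        simp [fgi] at this]
      simp
  | some v =>
    cases T with
    | none =>
      rw [if_neg (fun e => by have := e.2; simp [fgi] at this),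
        Finset.sum_eq_zero fun i _ => if_neg fun e => by simp at e]
      simp
    | some j =>
      rw [if_neg (fun e => by simp at e), zero_add]
      simp only [Option.elim]
      rw [hlam, sum_filter]
      refine sum_congr rfl fun i _ => ?_
      by_cases h1 : t i = j ∧ (lb i).1.1 = v
      · rw [if_pos h1, if_pos]
        · rfl
        · exact ⟨by rw [Option.map_some, h1.1], by
            simp only [fgi, Option.map_some, Option.some.injEq]
            exact h1.2⟩
      · rw [if_neg h1, if_neg]
        rintro ⟨e1, e2⟩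
        apply h1
        refine ⟨by simpa using e1, ?_⟩
        simp only [fgi, Option.map_some, Option.some.injEq] at e2
        exact e2

/-- the numbers of the primes -/
lemma om_Dl' (t : I → J) (l : Pr z y → Option I) :
    (fun a => ∑ i ∈ univ.filter (fun i : I => t i = a), (Dl l i).primeFactors.card) =
      omJ (Dl fun p => (l p).map t) := by
  funext a
  unfold omJ
  have h1 : ∀ {ι : Type} [DecidableEq ι] (l : Pr z y → Option ι) (i : ι),
      (Dl l i).primeFactors.card = (univ.filter (fun p : Pr z y => l p = some i)).card := by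
    intro ι _ l i
    unfold Dl
    rw [nb_pf]
    unfold Pool.Agent.W762.RK2.Ts
    rw [card_map]
    simp only [decide_eq_true_eq]
  rw [h1, Finset.sum_congr rfl fun i _ => h1 l i, ← card_biUnion]
  · congr 1
    ext p
    rw [mem_biUnion]
    simp only [mem_filter, mem_univ, true_and, Option.map_eq_some_iff]
    constructor
    · rintro ⟨i, h2, h3⟩
      exact ⟨i, h3, h2⟩
    · rintro ⟨i, h2, h3⟩
      exact ⟨i, h3, h2⟩
  · intro i _ j _ hij
    rw [Function.onFun, Finset.disjoint_left]
    intro p hp hp'
    rw [mem_filter] at hp hp'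
    exact hij (Option.some.inj (hp.2.symm.trans hp'.2))

end

/-- **W1** -/
theorem s4_exp : S4_EXP := by
  classical
  intro J I _ _ _ _ k c z y t lb lam g hlam F
  have hlam' : ∀ p : Pr z y, ∀ j v h, lam j p v h * (1 / (((p : ℕ) : ℝ) - c)) =
      ∑ i ∈ univ.filter (fun i => t i = j ∧ (lb i).1.1 = v), g i p * chi (lb i).1.2 h := by
    intro p j v h
    have hp := mem_PS.1 p.2
    exact hlam j p hp.2 hp.1.1 v h
  rw [sum_Tup, sum_Tup, Finset.sum_congr rfl fun T _ => by rw [lhs_T (k := k) lam c T]]
  rw [← Finset.sum_fiberwise univ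
    (fun (l : Pr z y → Option I) => fun p => (l p).map t)]
  refine Finset.sum_congr rfl fun T _ => ?_
  rw [← Finset.sum_fiberwise (univ.filter
    (fun l : Pr z y → Option I => (fun p => (l p).map t) = T))
    (fun (l : Pr z y → Option I) => fun p => fgi lb (l p)), Finset.mul_sum]
  refine Finset.sum_congr rfl fun ξ _ => ?_
  rw [Finset.prod_congr rfl fun p _ => (loc_sum' t lb lam g c ξ p (hlam' p) (T p)).symm,
    Finset.prod_univ_sum, Finset.mul_sum]
  have h1 : ((univ.filter fun l : Pr z y → Option I =>
      (fun p => (l p).map t) = T).filter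
      fun l => (fun p => fgi lb (l p)) = ξ) =
      Fintype.piFinset (fun p => univ.filter
        (fun x : Option I => x.map t = T p ∧ fgi lb x = ξ p)) := by
    ext l
    simp only [Finset.mem_filter, Finset.mem_univ, true_and, Fintype.mem_piFinset, funext_iff]
    constructor
    · rintro ⟨h1, h2⟩ p
      exact ⟨h1 p, h2 p⟩
    · intro h
      exact ⟨fun p => (h p).1, fun p => (h p).2⟩
  rw [h1]
  refine Finset.sum_congr rfl fun l hl => ?_
  rw [Fintype.mem_piFinset] at hl
  have h2 : ∀ p, (l p).map t = T p ∧ fgi lb (l p) = ξ p :=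
    fun p => (Finset.mem_filter.1 (hl p)).2
  have h3 := rhs_termw lb g ξ l fun p => (h2 p).2
  rw [h3, om_Dl', show (fun p => (l p).map t) = T from funext fun p => (h2 p).1]
  ring

end Pool.Agent.L0h5.TW
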