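import Pool.Agent.L0h5.TW.Stm
import Pool.Agent.L0h5.TE.Q1

/-!
# Project TW: from the rational polynomials to the families of pairs
-/

set_option autoImplicit false
set_option linter.unusedSectionVars false

namespace Pool.Agent.L0h5.TW

open Finset Polynomial Pool.Agent.W262.RK Pool.Agent.L0h5.TH Pool.Agent.L0h5.MR
  Pool.Agent.L0h5.TQ Pool.Agent.L0h5.TE UniqueFactorizationMonoid
open Pool.Agent.L0h5.TF hiding oo QF
open Pool.Agent.L0h5.TU

section

variable {D : ℚ[X]} {G : Fin 3 → ℚ[X]}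

open Classical in
/-- the places of class `k` that are split or of odd multiplicity -/
noncomputable def str (D : ℚ[X]) (G : Fin 3 → ℚ[X]) (k : Fin 3) : Finset ℚ[X] :=
  (mfT ∅ D (G k)).filter (fun f => SplitQ f (kp D G k) ∨ Odd ((normalizedFactors (G k)).count f))

open Classical in
/-- the criterion -/
def CritG (D : ℚ[X]) (G : Fin 3 → ℚ[X]) : Prop := ∀ k : Fin 3,
  (mfT ∅ D (G k)).card = 0 ∨
  (mfT ∅ D (G k)).card < ∑ l ∈ univ.erase k, (str D G l).card ∨
  ((mfT ∅ D (G k)).card = ∑ l ∈ univ.erase k, (str D G l).card ∧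
    ∃ l, ∃ f ∈ mfT ∅ D (G l), ¬ SplitQ f (kp D G l) ∧ Even ((normalizedFactors (G l)).count f))

/-- the class of a factor -/
noncomputable def cG (D : ℚ[X]) (G : Fin 3 → ℚ[X]) (j : {f // f ∈ fcs D G}) : Fin 4 :=
  clsG (fun f : {f // f ∈ fcs D G} => dl D f.1) (fun f => ql G f.1) j

open Classical in
lemma cls_mem (hG : ∀ k, G k ≠ 0) (hcop : ∀ k l, k ≠ l → IsCoprime (G k) (G l))
    (j : {f // f ∈ fcs D G}) {k : Fin 3} (h : cG D G j = k.castSucc) :
    j.1 ∈ mfT ∅ D (G k) := by
  unfold cG clsG at h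
  by_cases h1 : dl D j.1 = true
  · rw [if_pos h1] at h
    exact absurd h.symm (cs_ne' k)
  · rw [if_neg h1] at h
    have h2 : ql G j.1 = k := Fin.castSucc_injective 3 h
    have h3 : ¬ j.1 ∣ D := by
      unfold dl at h1
      rwa [decide_eq_true_iff] at h1
    obtain ⟨h4, h5, -⟩ := fcs_spec j.2
    obtain ⟨l, hl⟩ := (fcs_cases j.2).resolve_left h3
    have h6 := ql_of_dvd hcop h4 hl
    have h7 : l = k := h6.symm.trans h2
    subst h7
    unfold mfT
    rw [mem_filter, Multiset.mem_toFinset]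
    refine ⟨?_, h3, notMem_empty _⟩
    obtain ⟨g, hg, hfg⟩ := exists_mem_normalizedFactors_of_dvd (hG l) h4 hl
    have h8 : j.1 = g := by
      rw [← h5, ← normalize_normalized_factor g hg]
      exact normalize_eq_normalize_iff_associated.2 hfg
    rwa [h8]

open Classical in
lemma mem_cls (hD : D ≠ 0) (hG : ∀ k, G k ≠ 0)
    (hcop : ∀ k l, k ≠ l → IsCoprime (G k) (G l)) {k : Fin 3} {f : ℚ[X]}
    (h : f ∈ mfT ∅ D (G k)) : ∃ hf : f ∈ fcs D G, cG D G ⟨f, hf⟩ = k.castSucc := by
  have hql := ql_mfT hcop h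
  unfold mfT at h
  rw [mem_filter, Multiset.mem_toFinset] at h
  refine ⟨mem_fcs hD hG (irreducible_of_normalized_factor f h.1)
    (normalize_normalized_factor f h.1) ((dvd_of_mem_normalizedFactors h.1).trans (dvd_all k)), ?_⟩
  unfold cG clsG
  have h5 : dl D f = false := by
    unfold dl
    exact decide_eq_false h.2.1
  simp only [h5, Bool.false_eq_true, if_false, hql]

open Classical in
lemma badj (hcop : ∀ k l, k ≠ l → IsCoprime (G k) (G l)) {l : Fin 3} {f : ℚ[X]}
    (h : f ∈ mfT ∅ D (G l)) (hf : f ∈ fcs D G) (hc : cG D G ⟨f, hf⟩ = l.castSucc) :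
    (decide (cG D G ⟨f, hf⟩ ≠ 3) && evG (fun f : {f // f ∈ fcs D G} => ml G f.1) ⟨f, hf⟩ &&
      !(spb D G f)) = true ↔
    (¬ SplitQ f (kp D G l) ∧ Even ((normalizedFactors (G l)).count f)) := by
  have h1 : decide (cG D G ⟨f, hf⟩ ≠ 3) = true := by
    rw [hc]
    exact decide_eq_true (cs_ne' l)
  have h2 : ml G f = (normalizedFactors (G l)).count f := by
    unfold ml
    rw [ql_mfT hcop h]
  rw [h1, Bool.true_and, Bool.and_eq_true, Bool.not_eq_true', ← spb_iff hcop h]
  unfold evG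
  rw [decide_eq_true_iff, Bool.not_eq_true]
  beta_reduce
  rw [h2]
  exact and_comm

open Classical in
/-- the criterion in terms of the factors -/
theorem critW_of (hD : D ≠ 0) (hG : ∀ k, G k ≠ 0)
    (hcop : ∀ k l, k ≠ l → IsCoprime (G k) (G l)) (h : CritG D G) :
    CritW (cG D G) (fun j => decide (cG D G j ≠ 3) &&
      evG (fun f : {f // f ∈ fcs D G} => ml G f.1) j && !(spb D G j.1)) := by
  intro a ha ⟨j0, hj0⟩
  beta_reduce
  obtain ⟨k, rfl⟩ : ∃ k : Fin 3, k.castSucc = a := by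
    clear hj0
    revert a
    decide
  have h1 : (univ.filter (fun j => cG D G j = k.castSucc)).card ≤ (mfT ∅ D (G k)).card := by
    refine card_le_card_of_injOn (fun j => j.1) ?_ ?_
    · intro j hj
      exact cls_mem hG hcop j (mem_filter.1 (mem_coe.1 hj)).2
    · intro j _ j' _ h
      exact Subtype.ext h
  have h2 : ∑ l ∈ univ.erase k, (str D G l).card ≤
      (univ.filter (fun j => cG D G j ≠ k.castSucc ∧ cG D G j ≠ 3 ∧ (decide (cG D G j ≠ 3) &&
      evG (fun f : {f // f ∈ fcs D G} => ml G f.1) j && !(spb D G j.1)) = false)).card := by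
    rw [← card_biUnion]
    · have hsub : (univ.erase k).biUnion (fun l => str D G l) ⊆
          (univ.filter (fun j => cG D G j ≠ k.castSucc ∧ cG D G j ≠ 3 ∧
          (decide (cG D G j ≠ 3) && evG (fun f : {f // f ∈ fcs D G} => ml G f.1) j &&
            !(spb D G j.1)) = false)).image (fun j => j.1) := by
        intro f hf
        rw [mem_biUnion] at hf
        obtain ⟨l, hl, hf⟩ := hf
        unfold str at hf
        rw [mem_filter] at hf
        obtain ⟨hf1, hf2⟩ := mem_cls hD hG hcop hf.1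
        rw [mem_image]
        refine ⟨⟨f, hf1⟩, ?_, rfl⟩
        rw [mem_filter]
        refine ⟨mem_univ _, ?_, ?_, ?_⟩
        · rw [hf2]
          exact fun h => (mem_erase.1 hl).1 (Fin.castSucc_injective 3 h)
        · rw [hf2]
          exact cs_ne' l
        · rw [← Bool.not_eq_true, badj hcop hf.1 hf1 hf2]
          rintro ⟨h3, h4⟩
          rcases hf.2 with h5 | h5
          · exact h3 h5
          · exact (Nat.not_even_iff_odd.2 h5) h4
      exact (card_le_card hsub).trans card_image_le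
    · intro l _ l' _ hll
      rw [Function.onFun, Finset.disjoint_left]
      intro f hf hf'
      unfold str at hf hf'
      rw [mem_filter] at hf hf'
      exact hll ((ql_mfT hcop hf.1).symm.trans (ql_mfT hcop hf'.1))
  have h3 : 0 < (univ.filter (fun j => cG D G j = k.castSucc)).card :=
    card_pos.2 ⟨j0, mem_filter.2 ⟨mem_univ _, hj0⟩⟩
  rcases h k with h4 | h4 | ⟨h4, l, f, hf, h5⟩
  · omega
  · left
    omega
  · obtain ⟨hf1, hf2⟩ := mem_cls hD hG hcop hf
    have h6 := (badj hcop hf hf1 hf2).2 h5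
    by_cases h7 : (univ.filter (fun j => cG D G j = k.castSucc)).card <
      (univ.filter (fun j => cG D G j ≠ k.castSucc ∧ cG D G j ≠ 3 ∧ (decide (cG D G j ≠ 3) &&
      evG (fun f : {f // f ∈ fcs D G} => ml G f.1) j && !(spb D G j.1)) = false)).card
    · exact Or.inl h7
    · right
      exact ⟨by omega, ⟨f, hf1⟩, h6⟩

open Classical in
/-- the family of pairs -/
theorem fam4 (hrel : G 0 - G 1 = G 2) (hD : Squarefree D) (hG : ∀ k, G k ≠ 0)
    (h01 : IsCoprime (G 0) (G 1)) {n : ℕ} (hdeg : ∀ k, (D * G k).natDegree = 2 * n)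
    (hcr : CritG D G) :
    ∃ (P : {f // f ∈ fcs D G} → ℤ[X]) (a : Fin 3 → ℤ) (u : ℤ),
      (∀ f : {f // f ∈ fcs D G}, ∃ d : ℤ, d ≠ 0 ∧
        (P f).map (Int.castRingHom ℚ) = C (d : ℚ) * f.1) ∧ u ≠ 0 ∧
      (∀ k, (Fk P a (fun f => dl D f.1) (fun f => ql G f.1) (fun f => ml G f.1) k).map
        (Int.castRingHom ℚ) = C ((u : ℚ) ^ 2) * (D * G k)) ∧
      Fam4 P a (fun f => dl D f.1) (fun f => ql G f.1) (fun f => ml G f.1) n
        (fun f => spb D G f.1) := by
  have hcop := cop3 hrel h01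
  set S := fcs D G with hSd
  have hS : ∀ f ∈ S, Irreducible f ∧ normalize f = f := fun f hf =>
    ⟨(fcs_spec hf).1, (fcs_spec hf).2.1⟩
  have hDS : ∀ f, Irreducible f → normalize f = f → f ∣ D → f ∈ S := fun f h1 h2 h3 =>
    mem_fcs hD.ne_zero hG h1 h2 (((h3.mul_right _).mul_right _).mul_right _)
  have hGS : ∀ k f, Irreducible f → normalize f = f → f ∣ G k → f ∈ S := fun l f h1 h2 h3 =>
    mem_fcs hD.ne_zero hG h1 h2 (h3.trans (dvd_all l))
  have hcov : ∀ f ∈ S, f ∣ D ∨ ∃ k, f ∣ G k := fun f hf => fcs_cases hf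
  obtain ⟨P, a, u, hPd, hFm, hu, hFk⟩ := fac2 hD hG hcop S hS hDS hGS
  have huq : (u : ℚ) ≠ 0 := by exact_mod_cast hu
  refine ⟨P, a, u, hPd, hu, hFk, ?_⟩
  constructor
  · exact hFm
  · apply Polynomial.map_injective (Int.castRingHom ℚ) (RingHom.injective_int _)
    rw [Polynomial.map_sub, hFk, hFk, hFk, ← hrel]
    ring
  · intro k
    rw [← natDegree_map_eq_of_injective (RingHom.injective_int (Int.castRingHom ℚ)), hFk,
      natDegree_C_mul (pow_ne_zero _ huq), hdeg]
  · intro j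
    rcases hcov j.1 j.2 with h2 | ⟨l, h2⟩
    · left
      exact decide_eq_true h2
    · right
      obtain ⟨h3, h4⟩ := hS j.1 j.2
      have h5 := ql_of_dvd hcop h3 h2
      unfold ml
      rw [h5, Multiset.one_le_count_iff_mem]
      obtain ⟨g, hg, hfg⟩ := exists_mem_normalizedFactors_of_dvd (hG l) h3 h2
      have h13 : j.1 = g := by
        rw [← h4, ← normalize_normalized_factor g hg]
        exact normalize_eq_normalize_iff_associated.2 hfg
      rwa [h13]
  · intro j hj
    rw [split_iff hu hFk j (hPd j) hj]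
    unfold spb
    rw [decide_eq_true_iff]
  · exact critW_of hD.ne_zero hG hcop hcr

end

end Pool.Agent.L0h5.TW
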