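import Pool.Agent.L0h5.TW.Rat1

/-!
# Project TW: the pairs with positive second entry, the typical ones
-/

set_option autoImplicit false
set_option linter.unusedSectionVars false

namespace Pool.Agent.L0h5.TW

open Finset Polynomial Pool.Agent.W262.RK Pool.Agent.L0h5.TH Pool.Agent.L0h5.MR
  Pool.Agent.L0h5.TQ Pool.Agent.L0h5.TE UniqueFactorizationMonoid Filter
open Pool.Agent.L0h5.TF hiding oo QF
open Pool.Agent.L0h5.TU
open Pool.Agent.L0h5.TT (LL)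

section

variable {J : Type} [Fintype J] [DecidableEq J]

open Classical in
/-- the pairs -/
noncomputable def Cp (P : J → ℤ[X]) (X : ℕ) : Finset (ℤ × ℤ) := (TH P X).filter (fun t => 0 < t.2)

lemma mem_Cp {P : J → ℤ[X]} {X : ℕ} {t : ℤ × ℤ} : t ∈ Cp P X ↔ t ∈ TH P X ∧ 0 < t.2 := by
  unfold Cp
  rw [mem_filter]

lemma Cp_mono {P : J → ℤ[X]} {X Y : ℕ} (h : X ≤ Y) : Cp P X ⊆ Cp P Y := by
  intro t ht
  rw [mem_Cp] at ht ⊢
  refine ⟨?_, ht.2⟩
  have h1 := ht.1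
  rw [mem_TH] at h1 ⊢
  have h2 : (X : ℤ) ≤ Y := by exact_mod_cast h
  exact ⟨⟨⟨by omega, by omega⟩, by omega, by omega⟩, h1.2⟩

/-- the rank at a pair -/
noncomputable def rkp (P : J → ℤ[X]) (a : Fin 3 → ℤ) (tw : J → Bool) (q : J → Fin 3) (m : J → ℕ)
    (t : ℤ × ℤ) : ℕ :=
  Module.finrank ℤ (EAB (hv (Fk P a tw q m 0) t) (hv (Fk P a tw q m 1) t)).toAffine.Point

open Classical in
/-- the typical pairs -/
theorem bxt (hMn : S4_MAIN) (hTy : S2_TYP) [Nonempty J] {P : J → ℤ[X]} {a : Fin 3 → ℤ}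
    {tw : J → Bool} {q : J → Fin 3} {m : J → ℕ} {n : ℕ} {sp : J → Bool}
    (hF : Fam4 P a tw q m n sp) : BXT (fun T => Cp P T) 2 (rkp P a tw q m) := by
  refine ⟨fun T => (Cp P T).filter (fun t => ∀ j, Typ1 (P j) T t),
    fun T => filter_subset _ _, ?_, fun k => ?_⟩
  · choose C X0 hX0 hC using fun j => hTy (P j) (hF.fm.irr j)
    have tX : Tendsto (fun T : ℕ => (T : ℝ)) atTop atTop := tendsto_natCast_atTop_atTop
    have tL : Tendsto (fun T : ℕ => LL T) atTop atTop :=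
      Real.tendsto_log_atTop.comp (Real.tendsto_log_atTop.comp tX)
    have tR : Tendsto (fun T : ℕ => (LL T) ^ (1 / 2 : ℝ)) atTop atTop :=
      (tendsto_rpow_atTop (by norm_num : (0 : ℝ) < 1 / 2)).comp tL
    have t4 : Tendsto (fun T : ℕ => (∑ j, |C j|) / (LL T) ^ (1 / 2 : ℝ)) atTop
        (nhds 0) := tR.const_div_atTop _
    refine squeeze_zero' (Eventually.of_forall fun T => by positivity) ?_ t4
    have hev : ∀ᶠ T : ℕ in atTop, ∀ j, X0 j ≤ T :=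
      eventually_all.2 fun j => eventually_ge_atTop (X0 j)
    filter_upwards [hev, tR.eventually_gt_atTop 0, eventually_ge_atTop 1] with T hT hR hT1
    have hTr : (0 : ℝ) < T := by exact_mod_cast hT1
    rw [div_le_iff₀ (by positivity)]
    have hsub : Cp P T \ (Cp P T).filter (fun t => ∀ j, Typ1 (P j) T t) ⊆
        univ.biUnion (fun j => (Icc (-(T : ℤ)) T ×ˢ Icc (-(T : ℤ)) T).filter (fun t : ℤ × ℤ =>
          Int.gcd t.1 t.2 = 1 ∧ hv (P j) t ≠ 0 ∧ ¬ Typ1 (P j) T t)) := by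
      intro t ht
      rw [Finset.mem_sdiff, mem_filter, not_and, not_forall] at ht
      obtain ⟨j, hj⟩ := ht.2 ht.1
      rw [mem_biUnion]
      refine ⟨j, mem_univ j, ?_⟩
      obtain ⟨⟨h1, h2⟩, h3, h4⟩ := mem_TH.1 (mem_Cp.1 ht.1).1
      rw [mem_filter, mem_product, mem_Icc, mem_Icc]
      refine ⟨⟨h1, h2⟩, Int.isCoprime_iff_gcd_eq_one.1 h3, ?_, hj⟩
      rw [hv_FF, prod_ne_zero_iff] at h4
      exact h4 j (mem_univ j)
    have h1 := (card_le_card hsub).trans card_biUnion_le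
    have h2 : ((Cp P T \ (Cp P T).filter (fun t => ∀ j, Typ1 (P j) T t)).card : ℝ) ≤
        ∑ j, (((Icc (-(T : ℤ)) T ×ˢ Icc (-(T : ℤ)) T).filter (fun t : ℤ × ℤ =>
          Int.gcd t.1 t.2 = 1 ∧ hv (P j) t ≠ 0 ∧ ¬ Typ1 (P j) T t)).card : ℝ) := by
      exact_mod_cast h1
    refine h2.trans ?_
    have h3 : ∀ j ∈ (univ : Finset J), (((Icc (-(T : ℤ)) T ×ˢ Icc (-(T : ℤ)) T).filter
        (fun t : ℤ × ℤ => Int.gcd t.1 t.2 = 1 ∧ hv (P j) t ≠ 0 ∧ ¬ Typ1 (P j) T t)).card : ℝ) ≤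
        |C j| * (T : ℝ) ^ 2 / (LL T) ^ (1 / 2 : ℝ) := by
      intro j _
      refine (hC j T (hT j)).trans ?_
      apply div_le_div_of_nonneg_right _ hR.le
      exact mul_le_mul_of_nonneg_right (le_abs_self _) (by positivity)
    refine (sum_le_sum h3).trans (le_of_eq ?_)
    rw [← sum_div, ← sum_mul, div_mul_eq_mul_div]
  · obtain ⟨C, hC⟩ := hMn J P a tw q m n sp hF k
    refine ⟨|C|, by positivity, fun T hT => ?_⟩
    have h3 := hC T hT
    have h5 : (Cp P T).filter (fun t => ∀ j, Typ1 (P j) T t) ⊆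
        (TH P T).filter (fun t => ∀ j, Typ1 (P j) T t) := by
      intro t ht
      rw [mem_filter] at ht ⊢
      exact ⟨(mem_Cp.1 ht.1).1, ht.2⟩
    refine (sum_le_sum_of_subset_of_nonneg h5 fun t _ _ => by positivity).trans (h3.trans ?_)
    exact mul_le_mul_of_nonneg_right (le_abs_self C) (by positivity)

lemma card_Cp (P : J → ℤ[X]) (T : ℕ) : (Cp P T).card ≤ (rats T).card := by
  refine card_le_card_of_injOn (fun t => (t.1 : ℚ) / (t.2 : ℚ)) ?_ ?_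
  · intro t ht
    obtain ⟨h1, h2⟩ := mem_Cp.1 (mem_coe.1 ht)
    obtain ⟨⟨h3, h4⟩, h5, h6⟩ := mem_TH.1 h1
    unfold rats
    refine mem_coe.2 (mem_image.2 ⟨t, ?_, rfl⟩)
    rw [mem_product, mem_Icc, mem_Icc]
    omega
  · intro s hs t ht hst
    obtain ⟨h1, h2⟩ := mem_Cp.1 (mem_coe.1 hs)
    obtain ⟨-, h3, -⟩ := mem_TH.1 h1
    obtain ⟨h4, h5⟩ := mem_Cp.1 (mem_coe.1 ht)
    obtain ⟨-, h6, -⟩ := mem_TH.1 h4
    simp only at hst
    have a1 := Rat.div_int_inj h2 h5 (Int.isCoprime_iff_gcd_eq_one.1 h3)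
      (Int.isCoprime_iff_gcd_eq_one.1 h6) hst
    exact Prod.ext a1.1 a1.2

end

section

variable {D : ℚ[X]} {G : Fin 3 → ℚ[X]}

lemma g_inj : Function.Injective (fun t : ℚ => (t.num, (t.den : ℤ))) := by
  intro s t hst
  simp only [Prod.mk.injEq] at hst
  exact Rat.ext hst.1 (by exact_mod_cast hst.2)

lemma g_mem {P : {f // f ∈ fcs D G} → ℤ[X]}
    (hPd : ∀ f : {f // f ∈ fcs D G}, ∃ d : ℤ, d ≠ 0 ∧
        (P f).map (Int.castRingHom ℚ) = C (d : ℚ) * f.1) {X : ℕ} {t : ℚ} (ht : t ∈ rats X)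
    (h6 : (D * G 0 * G 1 * G 2).eval t ≠ 0) : (t.num, (t.den : ℤ)) ∈ Cp P X := by
  obtain ⟨h7, h8⟩ := rats_spec ht
  have hdp := t.den_pos
  rw [mem_Cp, mem_TH]
  refine ⟨⟨⟨h7, by simp only; omega, h8⟩, ?_, ?_⟩, by simp only; omega⟩
  · exact Int.isCoprime_iff_gcd_eq_one.2 t.reduced
  · rw [hv_FF, prod_ne_zero_iff]
    intro j _ hj
    obtain ⟨d, hd, hPd'⟩ := hPd j
    have h9 := hv_div (P j) t
    rw [hj, hPd', eval_mul, eval_C] at h9
    have h10 : j.1.eval t ≠ 0 := factor_ne (fcs_spec j.2).2.2 h6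
    have hdq : (t.den : ℚ) ≠ 0 := by exact_mod_cast t.den_nz
    have h11 : (t.den : ℚ) ^ (P j).natDegree * ((d : ℚ) * j.1.eval t) ≠ 0 :=
      mul_ne_zero (pow_ne_zero _ hdq) (mul_ne_zero (by exact_mod_cast hd) h10)
    apply h11
    rw [← h9]
    simp

open Classical in
/-- few bad parameters -/
lemma bad_card (h0 : D * G 0 * G 1 * G 2 ≠ 0) (X : ℕ) :
    ((rats X).filter (fun t : ℚ => (D * G 0 * G 1 * G 2).eval t = 0)).card ≤
      (D * G 0 * G 1 * G 2).natDegree := by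
  refine le_trans (card_le_card (t := (D * G 0 * G 1 * G 2).roots.toFinset) ?_)
    ((Multiset.toFinset_card_le _).trans (card_roots' _))
  intro t ht
  rw [mem_filter] at ht
  rw [Multiset.mem_toFinset, mem_roots h0]
  exact ht.2

lemma rats_mono {X Y : ℕ} (h : X ≤ Y) : rats X ⊆ rats Y := by
  intro t ht
  unfold rats at ht ⊢
  rw [mem_image] at ht ⊢
  obtain ⟨p, hp, rfl⟩ := ht
  rw [mem_product, mem_Icc, mem_Icc] at hp
  have h2 : (X : ℤ) ≤ Y := by exact_mod_cast h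
  exact ⟨p, by rw [mem_product, mem_Icc, mem_Icc]; omega, rfl⟩

end

end Pool.Agent.L0h5.TW
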