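import Pool.Agent.L0h5.TW.Rat2

/-!
# Project TW: all moments for the rational parameters
-/

set_option autoImplicit false
set_option linter.unusedSectionVars false

namespace Pool.Agent.L0h5.TW

open Finset Polynomial Pool.Agent.W262.RK Pool.Agent.L0h5.TH Pool.Agent.L0h5.MR
  Pool.Agent.L0h5.TQ Pool.Agent.L0h5.TE UniqueFactorizationMonoid Filter
open Pool.Agent.L0h5.TF hiding oo QF
open Pool.Agent.L0h5.TU
open Pool.Agent.L0h5.TT (LL)

variable {D : ℚ[X]} {G : Fin 3 → ℚ[X]}

/-- the number of the rational numbers of height at most `X` tends to infinity -/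
lemma rats_tend : Tendsto (fun X : ℕ => ((rats X).card : ℝ)) atTop atTop := by
  have h1 : Tendsto (fun X : ℕ => (X : ℝ) / 12) atTop atTop :=
    tendsto_natCast_atTop_atTop.atTop_div_const (by norm_num)
  refine tendsto_atTop_mono' _ ?_ h1
  filter_upwards [eventually_ge_atTop 1] with X hX
  have h2 := card_rats_lower X
  have h3 : (1 : ℝ) ≤ X := by exact_mod_cast hX
  nlinarith

open Classical in
/-- **All moments for the rational parameters** -/
theorem ratW (hMn : S4_MAIN) (hTy : S2_TYP) (hAsm : S2_ASM) (hrel : G 0 - G 1 = G 2)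
    (hD : Squarefree D) (hG : ∀ k, G k ≠ 0) (h01 : IsCoprime (G 0) (G 1)) {n : ℕ}
    (hdeg : ∀ k, (D * G k).natDegree = 2 * n) (hcr : CritG D G) :
    ∃ A : Set ℚ, (∀ t ∈ A, (D * G 0 * G 1 * G 2).eval t ≠ 0) ∧
      Tendsto (fun X : ℕ => (((rats X).filter (fun t => t ∉ A)).card : ℝ) / (rats X).card)
        atTop (nhds 0) ∧
      ∀ k : ℕ, ∃ C : ℝ, ∀ X : ℕ, ∑ t ∈ (rats X).filter (fun t => t ∈ A), (k : ℝ) ^ rkE D G t ≤
        C * (rats X).card := by
  have hne : D * G 0 * G 1 * G 2 ≠ 0 :=
    mul_ne_zero (mul_ne_zero (mul_ne_zero hD.ne_zero (hG 0)) (hG 1)) (hG 2)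
  have hN : Tendsto (fun X : ℕ => ((D * G 0 * G 1 * G 2).natDegree : ℝ) / (rats X).card) atTop
      (nhds 0) := rats_tend.const_div_atTop _
  rcases (fcs D G).eq_empty_or_nonempty with hE | hE
  · obtain ⟨A', hA'⟩ : ∃ A' : Set ℚ, ∀ t, t ∈ A' ↔ (D * G 0 * G 1 * G 2).eval t ≠ 0 :=
      ⟨{t | (D * G 0 * G 1 * G 2).eval t ≠ 0}, fun t => Iff.rfl⟩
    refine ⟨A', fun t ht => (hA' t).1 ht, ?_, fun k => ?_⟩
    · refine squeeze_zero (fun X => by positivity) (fun X => ?_) hN
      refine div_le_div_of_nonneg_right ?_ (Nat.cast_nonneg _)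
      have h1 : (rats X).filter (fun t => t ∉ A') =
          (rats X).filter (fun t : ℚ => (D * G 0 * G 1 * G 2).eval t = 0) := by
        refine filter_congr fun t _ => ?_
        rw [hA', not_not]
      rw [h1]
      exact_mod_cast bad_card hne X
    · refine ⟨(k : ℝ) ^ rkE D G 0, fun X => ?_⟩
      have h1 : ∀ t ∈ (rats X).filter (fun t => t ∈ A'),
          (k : ℝ) ^ rkE D G t = (k : ℝ) ^ rkE D G 0 := fun t _ => by
        rw [const_fam hD.ne_zero hG hE]
      rw [sum_congr rfl h1, sum_const, nsmul_eq_mul, mul_comm]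
      refine mul_le_mul_of_nonneg_left ?_ (by positivity)
      exact_mod_cast card_filter_le _ _
  · obtain ⟨P, a, u, hPd, hu, hFk, hF⟩ := fam4 hrel hD hG h01 hdeg hcr
    have : Nonempty {f // f ∈ fcs D G} := ⟨⟨hE.choose, hE.choose_spec⟩⟩
    obtain ⟨r, hr⟩ : ∃ r : ℤ × ℤ → ℕ,
      r = rkp P a (fun f => dl D f.1) (fun f => ql G f.1) (fun f => ml G f.1) := ⟨_, rfl⟩
    have hB : BXT (fun T => Cp P T) 2 r := by
      rw [hr]
      exact bxt hMn hTy hF
    obtain ⟨N, hNd⟩ : ∃ N : ℕ, N = (D * G 0 * G 1 * G 2).natDegree := ⟨_, rfl⟩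
    -- comparison of the cardinalities
    have hge : ∀ X : ℕ, ((rats X).card : ℝ) ≤ (Cp P X).card + N := by
      intro X
      have h1 := card_filter_add_card_filter_not (s := rats X)
        (fun t : ℚ => (D * G 0 * G 1 * G 2).eval t = 0)
      have h2 := bad_card hne X
      have h3 : ((rats X).filter (fun t : ℚ => ¬ (D * G 0 * G 1 * G 2).eval t = 0)).card ≤
          (Cp P X).card := by
        refine card_le_card_of_injOn (fun t => (t.num, (t.den : ℤ))) ?_ g_inj.injOn
        intro t ht
        have ht' := mem_filter.1 (mem_coe.1 ht)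
        exact mem_coe.2 (g_mem hPd ht'.1 ht'.2)
      have h4 : (rats X).card ≤ (Cp P X).card + N := by omega
      exact_mod_cast h4
    have hle : ∀ X : ℕ, ((Cp P X).card : ℝ) ≤ (rats X).card := fun X => by
      exact_mod_cast card_Cp P X
    have hmom : MOM (fun T => Cp P T) r := by
      refine hAsm (fun T => Cp P T) (fun T => Cp P T) 1 2 r r le_rfl (by norm_num)
        (fun H H' h => Cp_mono h) ⟨3, fun T hT => (hle T).trans (card_rats T hT)⟩
        ⟨1, id, fun H => ⟨Function.injective_id.injOn, fun c hc => ⟨fun T hT => ?_, le_rfl⟩⟩⟩ ?_ hB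
      · have h1 : H ≤ T := by
          rw [one_mul, pow_one] at hT
          omega
        exact Cp_mono h1 hc
      · refine ⟨1 / 24, 1, 24 * (N + 1), by norm_num, fun T H hT hTH => ?_⟩
        have h1 : T ≤ H := by
          rw [one_mul, pow_one] at hTH
          exact hTH
        have h2 : ((Cp P T).card : ℝ) ≤ (Cp P H).card := by
          exact_mod_cast card_le_card (Cp_mono h1)
        refine le_trans ?_ h2
        have h3 := hge T
        have h4 := card_rats_lower T
        have h5 : (24 * ((N : ℝ) + 1)) ≤ T := by exact_mod_cast hT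
        have h6 : (0 : ℝ) ≤ N := Nat.cast_nonneg N
        nlinarith
    obtain ⟨A, hA, hk⟩ := hmom
    obtain ⟨A', hA'⟩ : ∃ A' : Set ℚ, ∀ t, t ∈ A' ↔
      ((t.num, (t.den : ℤ)) ∈ A ∧ (D * G 0 * G 1 * G 2).eval t ≠ 0) :=
      ⟨{t | (t.num, (t.den : ℤ)) ∈ A ∧ (D * G 0 * G 1 * G 2).eval t ≠ 0}, fun t => Iff.rfl⟩
    refine ⟨A', fun t ht => ((hA' t).1 ht).2, ?_, fun k => ?_⟩
    · have h0 : Tendsto (fun X : ℕ => (((Cp P X).filter (fun c => c ∉ A)).card : ℝ) /
          (Cp P X).card + (N : ℝ) / (rats X).card) atTop (nhds 0) := by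
        have h1 := hA.add hN
        rw [add_zero] at h1
        rw [hNd]
        exact h1
      refine squeeze_zero (fun X => by positivity) (fun X => ?_) h0
      have h1 : (((rats X).filter (fun t => t ∉ A')).card : ℝ) ≤
          ((Cp P X).filter (fun c => c ∉ A)).card + N := by
        have h2 : (rats X).filter (fun t => t ∉ A') ⊆
          ((rats X).filter (fun t => (t.num, (t.den : ℤ)) ∉ A ∧
            (D * G 0 * G 1 * G 2).eval t ≠ 0)) ∪
          ((rats X).filter (fun t : ℚ => (D * G 0 * G 1 * G 2).eval t = 0)) := by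
          intro t ht
          rw [mem_filter, hA'] at ht
          rw [mem_union, mem_filter, mem_filter]
          by_cases h3 : (D * G 0 * G 1 * G 2).eval t = 0
          · exact Or.inr ⟨ht.1, h3⟩
          · exact Or.inl ⟨ht.1, fun h4 => ht.2 ⟨h4, h3⟩, h3⟩
        have h3 := (card_le_card h2).trans (card_union_le _ _)
        have h4 : ((rats X).filter (fun t => (t.num, (t.den : ℤ)) ∉ A ∧
            (D * G 0 * G 1 * G 2).eval t ≠ 0)).card ≤ ((Cp P X).filter (fun c => c ∉ A)).card := by
          refine card_le_card_of_injOn (fun t => (t.num, (t.den : ℤ))) ?_ g_inj.injOn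
          intro t ht
          have ht' := mem_filter.1 (mem_coe.1 ht)
          exact mem_coe.2 (mem_filter.2 ⟨g_mem hPd ht'.1 ht'.2.2, ht'.2.1⟩)
        have h5 := bad_card hne X
        have h6 : ((rats X).filter (fun t => t ∉ A')).card ≤
          ((Cp P X).filter (fun c => c ∉ A)).card + N := by omega
        exact_mod_cast h6
      refine (div_le_div_of_nonneg_right h1 (Nat.cast_nonneg (rats X).card)).trans ?_
      rw [add_div]
      refine add_le_add ?_ le_rfl
      rcases (Nat.cast_nonneg (α := ℝ) (Cp P X).card).eq_or_lt with h2 | h2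
      · have h3 : ((Cp P X).filter (fun c => c ∉ A)).card = 0 := by
          have h4 : (Cp P X).card = 0 := by exact_mod_cast h2.symm
          have h5 := card_filter_le (Cp P X) (fun c => c ∉ A)
          omega
        rw [h3]
        simp
      · exact div_le_div_of_nonneg_left (Nat.cast_nonneg _) h2 (hle X)
    · obtain ⟨C, hC⟩ := hk k
      refine ⟨|C|, fun X => ?_⟩
      have h1 : ∑ t ∈ (rats X).filter (fun t => t ∈ A'),
          (k : ℝ) ^ rkE D G t = ∑ c ∈ ((rats X).filter (fun t => t ∈ A')).image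
          (fun t => (t.num, (t.den : ℤ))), (k : ℝ) ^ r c := by
        rw [sum_image fun s _ t _ hst => g_inj hst]
        refine sum_congr rfl fun t _ => ?_
        rw [hr]
        unfold rkp
        rw [rk_eqQ hu hFk hF.deg t]
      rw [h1]
      have h2 : ((rats X).filter (fun t => t ∈ A')).image
          (fun t => (t.num, (t.den : ℤ))) ⊆ (Cp P X).filter (fun c => c ∈ A) := by
        intro c hc
        obtain ⟨t, ht, rfl⟩ := mem_image.1 hc
        obtain ⟨h3, h45⟩ := mem_filter.1 ht
        obtain ⟨h4, h5⟩ := (hA' t).1 h45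
        exact mem_filter.2 ⟨g_mem hPd h3 h5, h4⟩
      refine (sum_le_sum_of_subset_of_nonneg h2 fun c _ _ => by positivity).trans
        ((hC X).trans ?_)
      calc C * ((Cp P X).card : ℝ) ≤ |C| * ((Cp P X).card : ℝ) :=
            mul_le_mul_of_nonneg_right (le_abs_self C) (Nat.cast_nonneg _)
        _ ≤ |C| * (rats X).card := mul_le_mul_of_nonneg_left (hle X) (abs_nonneg C)

end Pool.Agent.L0h5.TW
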