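import Pool.Agent.L0h5.TU.Stm
import Pool.Agent.L0h5.TH.Loc

/-!
# All moments for the families with additive places: the definitions and the statements

Project TW (helper5), the extension of project TU to types of class `3` (twists). Every `S4_X` is the
statement of one module.
-/

set_option autoImplicit false

namespace Pool.Agent.L0h5.TW

open Finset Polynomial Pool.Agent.W262.RK Pool.Agent.L0h5.TH Pool.Agent.L0h5.MR
  Pool.Agent.L0h5.TQ Filter
open Pool.Agent.L0h5.TF hiding oo QF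
open Pool.Agent.L0h5.AG (gg)
open Pool.Agent.L0h5.TT (psi LL)
open Pool.Agent.L0h94.FT (Lki)
open Pool.Agent.L0h5.TU

/-! ### The indices -/

/-- the labels that occur for the class `c` -/
def OkL {k : ℕ} (c : Fin 4) (l : Lb k) : Bool :=
  decide (c = 3) || decide (∀ m, Al c (l.1.1 m) (l.1.2 m) = true)

/-- the indices: type, label, copy -/
def Iw {J : Type} (k B : ℕ) (c : J → Fin 4) : Type :=
  {i : J × Lb k × Fin B // OkL (c i.1) i.2.1 = true}

instance {J : Type} [Fintype J] (k B : ℕ) (c : J → Fin 4) : Fintype (Iw k B c) := by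
  unfold Iw; infer_instance

instance {J : Type} [DecidableEq J] (k B : ℕ) (c : J → Fin 4) : DecidableEq (Iw k B c) := by
  unfold Iw; infer_instance

/-- the label of an index -/
def lbw {J : Type} {k B : ℕ} {c : J → Fin 4} (i : Iw k B c) : Lb k := i.1.2.1

/-- the type of an index -/
def tyw {J : Type} {k B : ℕ} {c : J → Fin 4} (i : Iw k B c) : J := i.1.1

/-- the weight of a label for a class; `bad`: even multiplicity and nonsplit -/
noncomputable def wW {k : ℕ} (c : Fin 4) (bad : Bool) (l : Lb k) : ℝ :=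
  if bad = true then (if l.1 = (fun _ => (false, false), fun _ => (false, false)) then
    1 / 2 + (1 / 2) * wst c l.1.1 l.1.2 else (1 / 2) * wst c l.1.1 l.1.2) else wst c l.1.1 l.1.2

/-- the exponents -/
noncomputable def ew {J : Type} {k B : ℕ} {c : J → Fin 4} (bad : J → Bool) (i : Iw k B c) : ℝ :=
  wW (c (tyw i)) (bad (tyw i)) (lbw i) / B

/-- the criterion: for every class `a ≠ 3` that occurs, the number of the types of class `a` is at
most the number of the types of the other classes `≠ 3` that are not bad, and if they are equal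
there is a bad type -/
def CritW {J : Type} [Fintype J] (c : J → Fin 4) (bad : J → Bool) : Prop :=
  ∀ a : Fin 4, a ≠ 3 → (∃ j, c j = a) →
    (univ.filter (fun j => c j = a)).card <
      (univ.filter (fun j => c j ≠ a ∧ c j ≠ 3 ∧ bad j = false)).card ∨
    ((univ.filter (fun j => c j = a)).card =
      (univ.filter (fun j => c j ≠ a ∧ c j ≠ 3 ∧ bad j = false)).card ∧ ∃ j, bad j = true)

/-- the local average of a type -/
noncomputable def lamW {J : Type} {k : ℕ} (c : J → Fin 4) (evn : J → Bool)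
    (kap : J → ℕ → Fin 3 → ℤ) (R : J → ℕ → Finset ℕ) (j : J) (p : ℕ) (v h : Vk k) : ℝ :=
  ∑ r ∈ R j p, lstE (c j) (evn j) (kap j r) p v h

/-! ### The statements -/

/-- **W1** the expansion of the truncated average, for any indices `I` with types and labels -/
def S4_EXP : Prop := ∀ (J I : Type) [Fintype J] [DecidableEq J] [Fintype I] [DecidableEq I]
  (k c z y : ℕ) (t : I → J) (lb : I → Lb k) (lam : J → ℕ → Vk k → Vk k → ℝ) (g : I → ℕ → ℝ),
  (∀ j p, p.Prime → z < p → ∀ v h, lam j p v h * (1 / ((p : ℝ) - c)) =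
    ∑ i ∈ univ.filter (fun i => t i = j ∧ (lb i).1.1 = v), g i p * chi (lb i).1.2 h) →
  ∀ F : (J → ℕ) → ℝ,
  ∑ s ∈ Tup J z y, F (omJ s) * (GT lam s * ∏ j, gw 1 c (s j)) =
    ∑ d ∈ Tup I z y, ((∏ i, gg g i (d i)) * Sym (Lki lb) (fun _ => 1) d) *
      F (fun a => ∑ i ∈ univ.filter (fun i => t i = a), (d i).primeFactors.card)

/-- **W2** the unlinked sets -/
def S4_CMB : Prop := ∀ (J : Type) [Fintype J] [DecidableEq J] [Nonempty J] (k B : ℕ)
  (c : J → Fin 4) (bad : J → Bool), 1 ≤ k → 0 < B → (∀ j, c j = 3 → bad j = false) →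
  CritW c bad → ∃ δ0 : ℝ, 0 < δ0 ∧ δ0 ≤ 1 / 2 ∧ ∀ δ, 0 < δ → δ ≤ δ0 →
  ∀ U : Finset (Iw k B c), (∀ i ∈ U, ∀ j ∈ U, Lki lbw i j = Lki lbw j i) →
    (∑ i ∈ U, ew bad i ≤ Fintype.card J ∧ ∀ j, j ∉ U → ∃ i ∈ U, Lki lbw i j ≠ Lki lbw j i) ∨
    ∃ ρ : J → ℝ, (∀ a, 0 < ρ a) ∧
      ∑ i ∈ U, ew bad i * ρ (tyw i) - ∑ a, psi δ (ρ a) < Fintype.card J

open Classical in
/-- **W3** the average over the window (from `S2_AG`, W1, W2) -/
def S4_AVG : Prop := ∀ (J : Type) [Fintype J] [DecidableEq J] [Nonempty J] (cl : J → Fin 4)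
  (evn sp : J → Bool), CritW cl (fun j => decide (cl j ≠ 3) && evn j && !(sp j)) →
  ∀ (k B0 c : ℕ), 1 ≤ k →
  ∃ δ0 : ℝ, 0 < δ0 ∧ δ0 ≤ 1 / 2 ∧ ∃ z0 : ℕ, 8 ≤ z0 ∧ ∀ z, z0 ≤ z →
    ∀ (kap : J → ℕ → Fin 3 → ℤ) (R : J → ℕ → Finset ℕ) (Cj : ℝ),
    (∀ p : ℕ, p.Prime → z < p → ∑ j, (R j p).card ≤ B0) →
    (∀ (j : J) (y : ℕ), z < y → |∑ p ∈ PS z y, ((R j p).card : ℝ) / ((p : ℝ) - c) -
      Real.log (Real.log y)| ≤ Cj) →
    (∀ (j : J) (y : ℕ), cl j ≠ 3 → z < y →
      |∑ p ∈ PS z y, ((Rz kap R j p).card : ℝ) / ((p : ℝ) - c) -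
        th (sp j) * Real.log (Real.log y)| ≤ Cj) →
    ∃ C : ℝ, 0 ≤ C ∧ ∀ y, z < y →
      ∑ s ∈ (Tup J z y).filter (fun s => WinJ δ0 (LL y) (omJ s)),
        GT (lamW (k := k) cl evn kap R) s * ∏ j, gw 1 c (s j) ≤
          C * (Real.log y) ^ (Fintype.card J)

/-- the data of a family of pairs; `tw`: the additive places -/
structure Fam4 {J : Type} [Fintype J] [DecidableEq J] (P : J → ℤ[X]) (a : Fin 3 → ℤ)
    (tw : J → Bool) (q : J → Fin 3) (m : J → ℕ) (n : ℕ) (sp : J → Bool) : Prop where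
  fm : Fm P a
  rel : Fk P a tw q m 0 - Fk P a tw q m 1 = Fk P a tw q m 2
  deg : ∀ k, (Fk P a tw q m k).natDegree = 2 * n
  act : ∀ j, tw j = true ∨ 1 ≤ m j
  spl : ∀ j, tw j = false → (sp j = true ↔ IsSquare (AdjoinRoot.mk
    ((P j).map (Int.castRingHom ℚ)) ((kapQ P a tw q m j 0).map (Int.castRingHom ℚ))))
  crt : CritW (clsG tw q) (fun j => decide (clsG tw q j ≠ 3) && evG m j && !(sp j))

open Classical in
/-- **W4** all the moments over the typical pairs -/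
def S4_MAIN : Prop := ∀ (J : Type) [Fintype J] [DecidableEq J] [Nonempty J] (P : J → ℤ[X])
  (a : Fin 3 → ℤ) (tw : J → Bool) (q : J → Fin 3) (m : J → ℕ) (n : ℕ) (sp : J → Bool),
  Fam4 P a tw q m n sp →
  ∀ k : ℕ, ∃ C : ℝ, ∀ X : ℕ, 1 ≤ X →
    ∑ t ∈ (TH P X).filter (fun t => ∀ j, Typ1 (P j) X t),
      ((2 : ℝ) ^ Module.finrank ℤ (EAB (hv (Fk P a tw q m 0) t)
        (hv (Fk P a tw q m 1) t)).toAffine.Point) ^ k ≤ C * (X : ℝ) ^ 2

end Pool.Agent.L0h5.TW
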